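import Pool.Agent.Helper60.AO.Defs
import Pool.Agent.Helper96.AD.A6

/-!
# AO-H6: the mean of the integral over the radii, the number of collisions as a hypothesis

Copy of `Pool.Agent.Helper92.AD.A6`.
-/

open MeasureTheory Real Set Filter Topology

set_option autoImplicit false

namespace Pool.Agent.Helper56.AO

open Pool.Agent.Helper22.AE
open Pool.Agent.Helper92.GC (dt sqa)
open Pool.Agent.Helper60.AD Pool.Agent.Helper60.AO
open Pool.Agent.Helper96.AD (Yq_cont Yq_le Yq_mean)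

/-- a child arc lies in its parent -/
private lemma a6_child (B : Finset (ℤ × ℤ)) {M s j a : ℕ} (hM : 1 ≤ M) (ha : a < M) :
    arcSet B (8 * M ^ (s + 1)) (M * j + a) ⊆ arcSet B (8 * M ^ s) j := by
  intro k hk
  have h1 : k ∈ B := (Finset.mem_filter.mp hk).1
  have h2 : ⌊((8 * M ^ (s + 1) : ℕ) : ℝ) * xk k⌋₊ = M * j + a := (Finset.mem_filter.mp hk).2
  refine Finset.mem_filter.mpr ⟨h1, ?_⟩
  have hM0 : (0 : ℝ) < M := by exact_mod_cast hM
  have hx : 0 ≤ xk k := Int.fract_nonneg _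
  have e : ((8 * M ^ (s + 1) : ℕ) : ℝ) * xk k = M * (((8 * M ^ s : ℕ) : ℝ) * xk k) := by
    push_cast
    ring
  rw [e] at h2
  have hy : 0 ≤ ((8 * M ^ s : ℕ) : ℝ) * xk k := by positivity
  generalize ((8 * M ^ s : ℕ) : ℝ) * xk k = y at h2 hy ⊢
  have hMy : 0 ≤ (M : ℝ) * y := by positivity
  have h3 : ((M * j + a : ℕ) : ℝ) ≤ M * y ∧ (M : ℝ) * y < ((M * j + a : ℕ) : ℝ) + 1 := by
    have := (Nat.floor_eq_iff hMy).1 h2
    exact this
  rw [Nat.floor_eq_iff hy]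
  have ha' : (a : ℝ) + 1 ≤ M := by exact_mod_cast ha
  push_cast at h3
  constructor
  · by_contra hlt
    push Not at hlt
    have h4 : (M : ℝ) * y < M * j := mul_lt_mul_of_pos_left hlt hM0
    have : (0 : ℝ) ≤ a := Nat.cast_nonneg _
    linarith [h3.1]
  · by_contra hge
    push Not at hge
    have h4 : (M : ℝ) * (j + 1) ≤ M * y := mul_le_mul_of_nonneg_left hge hM0.le
    linarith [h3.2]

private lemma a6_cont {L J : ℕ} {H₀ : ℝ → ℝ} (h0 : ContDiff ℝ 2 H₀) (A : Fin J → Finset (ℤ × ℤ)) (v : Fin J → ℤ × ℤ → ℂ) (α : ℝ) :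
    Continuous (fun p : ((Fin L → ℝ) × (Fin L → ℝ)) × ℝ => Yq (Hw H₀ p.1) A v p.2 α) := by
  have h1 := Yq_cont (L := L) h0 A (fun t _ => v t) (fun t k => continuous_const)
  have h2 : Continuous (fun p : ((Fin L → ℝ) × (Fin L → ℝ)) × ℝ => (((p.2, α) : ℝ × ℝ), p.1)) := by fun_prop
  have h3 := h1.comp h2
  simp only [Function.comp_def] at h3
  exact h3

/-- one sum: integrability over the product and the mean for each radius -/
private lemma a6_int {L J : ℕ} {H₀ : ℝ → ℝ} (h0 : ContDiff ℝ 2 H₀) (A : Fin J → Finset (ℤ × ℤ)) (v : Fin J → ℤ × ℤ → ℂ)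
    (hv : ∀ t, ∀ k ∈ A t, ‖v t k‖ ≤ 1) (R₀ α : ℝ) :
    Integrable (fun p : ((Fin L → ℝ) × (Fin L → ℝ)) × ℝ => Yq (Hw H₀ p.1) A v p.2 α)
      ((gm L).prod (volume.restrict (Icc (R₀ / 2) (4 * R₀)))) := by
  have hc := a6_cont (L := L) h0 A v α
  refine Integrable.of_bound (C := (∏ t, ((A t).card : ℝ)) ^ 2) hc.aestronglyMeasurable (ae_of_all _ fun p => ?_)
  have h := Yq_le (Hw H₀ p.1) A v hv p.2 α
  rw [Real.norm_of_nonneg h.1]
  exact h.2

open Classical in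
theorem Ys_mean3 {L J M s n j : ℕ} (hJL : 2 * J ≤ L) (hM : 1 ≤ M) {H₀ : ℝ → ℝ} (h0 : ContDiff ℝ 2 H₀) (b : ℤ × ℤ → ℂ)
    (hb : ∀ k, ‖b k‖ ≤ 1) {a : Fin J → Fin M} {θ q R₀ α η N : ℝ}
    (hq : ∀ i : Ix L, ∀ k ∈ arcSet (blk n) (8 * M ^ s) j, |lam (bas H₀ i) θ α k| ≤ q) (hq0 : 0 < q)
    (hR₀ : 1 ≤ R₀) (hα : 1 / 2 ≤ |cos α|) (hη : 0 < η) (hN0 : 0 ≤ N)
    (hN : ∀ k ∈ Fintype.piFinset (Ch n M s j a),
      (((Fintype.piFinset (Ch n M s j a)).filter (fun k' => ∀ l < 2 * J, ‖Mom k k' l‖ ≤ η)).card : ℝ) ≤ N) :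
    ∫ w : (Fin L → ℝ) × (Fin L → ℝ), Ys H₀ (Ch n M s j a) b θ q R₀ α w ∂(gm L) ≤
      4 * R₀ * (1 + J * (2 * L + 1)) * (Dc (2 ^ n) M (s + 1) ^ J * N +
        Dc (2 ^ n) M (s + 1) ^ (2 * J) * exp (-(π / 16) * R₀ ^ 2 * η ^ 2)) := by
  have hMpos : (0 : ℝ) < (M : ℝ) := by exact_mod_cast hM
  have hDc : 0 ≤ Dc (2 ^ n) M (s + 1) := by unfold Dc; positivity
  set Bd : ℝ := Dc (2 ^ n) M (s + 1) ^ J * N +
        Dc (2 ^ n) M (s + 1) ^ (2 * J) * exp (-(π / 16) * R₀ ^ 2 * η ^ 2) with hBd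
  have hBd0 : 0 ≤ Bd := by rw [hBd]; positivity
  set A : Fin J → Finset (ℤ × ℤ) := Ch n M s j a with hA
  have hsub : ∀ t, A t ⊆ arcSet (blk n) (8 * M ^ s) j := fun t => a6_child (blk n) hM (a t).isLt
  have hcard : ∀ t, ((A t).card : ℝ) ≤ Dc (2 ^ n) M (s + 1) := by
    intro t
    have h8 : 8 ≤ 8 * M ^ (s + 1) := Nat.le_mul_of_pos_right 8 (Nat.pow_pos hM)
    have h3 := arc_card n h8 (M * j + a t)
    unfold Dc
    push_cast at h3
    exact h3
  have hprod : ∏ t, ((A t).card : ℝ) ≤ Dc (2 ^ n) M (s + 1) ^ J := by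
    calc ∏ t, ((A t).card : ℝ) ≤ ∏ _t : Fin J, Dc (2 ^ n) M (s + 1) :=
          Finset.prod_le_prod (fun i _ => Nat.cast_nonneg _) (fun i _ => hcard i)
      _ = Dc (2 ^ n) M (s + 1) ^ J := by simp
  have hprod0 : 0 ≤ ∏ t, ((A t).card : ℝ) := Finset.prod_nonneg fun i _ => Nat.cast_nonneg _
  -- the mean for one system of weights
  have hone : ∀ v : Fin J → ℤ × ℤ → ℂ, (∀ t, ∀ k ∈ A t, ‖v t k‖ ≤ 1) → ∀ R ∈ Icc (R₀ / 2) (4 * R₀),
      ∫ w : (Fin L → ℝ) × (Fin L → ℝ), Yq (Hw H₀ w) A v R α ∂(gm L) ≤ Bd := by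
    intro v hv R hR
    have hR0 : 0 < R := lt_of_lt_of_le (by linarith) hR.1
    have hms := Yq_mean hJL h0 A v hv hR0 hα hη (N := N) hN
    refine hms.trans ?_
    rw [hBd]
    refine add_le_add (mul_le_mul_of_nonneg_right hprod hN0) ?_
    have he : exp (-(π / 4) * R ^ 2 * η ^ 2) ≤ exp (-(π / 16) * R₀ ^ 2 * η ^ 2) := by
      apply exp_le_exp.2
      have h5 : R₀ ^ 2 ≤ 4 * R ^ 2 := by
        have h6 : R₀ ≤ 2 * R := by linarith [hR.1]
        have h7 : R₀ ^ 2 ≤ (2 * R) ^ 2 := pow_le_pow_left₀ (by linarith) h6 2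
        linarith
      have h8 : 0 ≤ π / 16 * η ^ 2 := by positivity
      nlinarith
    calc (∏ i, ((A i).card : ℝ)) ^ 2 * exp (-(π / 4) * R ^ 2 * η ^ 2)
        ≤ (Dc (2 ^ n) M (s + 1) ^ J) ^ 2 * exp (-(π / 16) * R₀ ^ 2 * η ^ 2) :=
          mul_le_mul (pow_le_pow_left₀ hprod0 hprod 2) he (exp_pos _).le (by positivity)
      _ = Dc (2 ^ n) M (s + 1) ^ (2 * J) * exp (-(π / 16) * R₀ ^ 2 * η ^ 2) := by
          rw [← pow_mul, mul_comm J 2]
  -- the weights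
  have hv0 : ∀ t : Fin J, ∀ k ∈ A t, ‖(fun _ : Fin J => b) t k‖ ≤ 1 := fun t k _ => hb k
  have hwt : ∀ (t : Fin J) (i : Ix L), ∀ t' : Fin J, ∀ k ∈ A t', ‖wt H₀ b θ α q t i t' k‖ ≤ 1 := by
    intro t i t' k hk
    unfold wt
    by_cases ht : t' = t
    · subst ht
      rw [Function.update_self, norm_mul, Complex.norm_real, Real.norm_eq_abs, abs_div, abs_of_pos hq0]
      have h3 : |lam (bas H₀ i) θ α k| / q ≤ 1 := (div_le_one hq0).2 (hq i k (hsub t' hk))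
      exact mul_le_one₀ (hb k) (by positivity) h3
    · rw [Function.update_of_ne ht]
      exact hb k
  -- Fubini
  set μ := (volume.restrict (Icc (R₀ / 2) (4 * R₀)) : Measure ℝ) with hμ
  set F : ((Fin L → ℝ) × (Fin L → ℝ)) → ℝ → ℝ := fun w R => Yq (Hw H₀ w) A (fun _ => b) R α +
    ∑ t : Fin J, ∑ i : Ix L, Yq (Hw H₀ w) A (wt H₀ b θ α q t i) R α with hF
  have hFi : Integrable (fun p : ((Fin L → ℝ) × (Fin L → ℝ)) × ℝ => F p.1 p.2) ((gm L).prod μ) := by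
    refine (a6_int h0 A (fun _ => b) hv0 R₀ α).add ?_
    exact integrable_finsetSum _ fun t _ => integrable_finsetSum _ fun i _ => a6_int h0 A _ (hwt t i) R₀ α
  have hsw : ∫ w, Ys H₀ A b θ q R₀ α w ∂(gm L) = ∫ R, ∫ w, F w R ∂(gm L) ∂μ := by
    rw [← integral_integral_swap (f := F) hFi]
    rfl
  rw [hsw]
  have hiw : ∀ v : Fin J → ℤ × ℤ → ℂ, (∀ t, ∀ k ∈ A t, ‖v t k‖ ≤ 1) → ∀ R : ℝ,
      Integrable (fun w : (Fin L → ℝ) × (Fin L → ℝ) => Yq (Hw H₀ w) A v R α) (gm L) := by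
    intro v hv R
    have hc : Continuous (fun w : (Fin L → ℝ) × (Fin L → ℝ) => Yq (Hw H₀ w) A v R α) := by
      have h2 : Continuous (fun w : (Fin L → ℝ) × (Fin L → ℝ) => (w, R)) := by fun_prop
      have h3 := (a6_cont (L := L) h0 A v α).comp h2
      simp only [Function.comp_def] at h3
      exact h3
    refine Integrable.of_bound (C := (∏ t, ((A t).card : ℝ)) ^ 2) hc.aestronglyMeasurable (ae_of_all _ fun w => ?_)
    have h := Yq_le (Hw H₀ w) A v hv R α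
    rw [Real.norm_of_nonneg h.1]
    exact h.2
  have hR : ∀ R ∈ Icc (R₀ / 2) (4 * R₀), ∫ w, F w R ∂(gm L) ≤ (1 + J * (2 * L + 1)) * Bd := by
    intro R hR
    rw [hF]
    show ∫ w, (_ + _) ∂(gm L) ≤ _
    rw [integral_add (hiw _ hv0 R) (integrable_finsetSum _ fun t _ => integrable_finsetSum _ fun i _ => hiw _ (hwt t i) R),
      integral_finsetSum _ (fun t _ => integrable_finsetSum _ fun i _ => hiw _ (hwt t i) R)]
    have h3 : ∀ t ∈ (Finset.univ : Finset (Fin J)), ∫ w, ∑ i : Ix L, Yq (Hw H₀ w) A (wt H₀ b θ α q t i) R α ∂(gm L) ≤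
        (2 * L + 1) * Bd := by
      intro t _
      rw [integral_finsetSum _ (fun i _ => hiw _ (hwt t i) R)]
      calc _ ≤ ∑ _i : Ix L, Bd := Finset.sum_le_sum fun i _ => hone _ (hwt t i) R hR
        _ = (2 * L + 1) * Bd := by
          rw [Finset.sum_const, nsmul_eq_mul, Finset.card_univ, Fintype.card_option, Fintype.card_sum, Fintype.card_fin]
          push_cast
          ring
    have h4 := Finset.sum_le_sum h3
    rw [Finset.sum_const, nsmul_eq_mul, Finset.card_univ, Fintype.card_fin] at h4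
    have h5 := hone _ hv0 R hR
    have e : (1 + (J : ℝ) * (2 * L + 1)) * Bd = Bd + J * ((2 * L + 1) * Bd) := by ring
    rw [e]
    exact add_le_add h5 h4
  have hvol : (volume : Measure ℝ).real (Icc (R₀ / 2) (4 * R₀)) = 7 / 2 * R₀ := by
    rw [Measure.real, Real.volume_Icc, ENNReal.toReal_ofReal (by linarith)]
    ring
  have hfin : ∫ R, ∫ w, F w R ∂(gm L) ∂μ ≤ 7 / 2 * R₀ * ((1 + J * (2 * L + 1)) * Bd) := by
    have h3 : ∫ R in Icc (R₀ / 2) (4 * R₀), ∫ w, F w R ∂(gm L) ≤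
        ∫ _R in Icc (R₀ / 2) (4 * R₀), (1 + J * (2 * L + 1)) * Bd := by
      apply setIntegral_mono_on
      · exact hFi.integral_prod_right
      · exact integrableOn_const (by rw [Real.volume_Icc]; exact ENNReal.ofReal_ne_top)
      · exact measurableSet_Icc
      · exact hR
    rw [setIntegral_const, hvol, smul_eq_mul] at h3
    exact h3
  refine hfin.trans ?_
  have h6 : 7 / 2 * R₀ ≤ 4 * R₀ := by linarith
  calc 7 / 2 * R₀ * ((1 + J * (2 * L + 1)) * Bd) ≤ 4 * R₀ * ((1 + J * (2 * L + 1)) * Bd) := by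
        apply mul_le_mul_of_nonneg_right h6
        positivity
    _ = 4 * R₀ * (1 + J * (2 * L + 1)) * Bd := by ring

end Pool.Agent.Helper56.AO
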