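import Pool.Agent.Helper22.AE.F1
import Pool.Agent.Helper22.AE.E0

/-!
# AO-HU2: quantitative transfer from the Gaussian measure `gm L` to the random series

`head_quant`: the law of `(s l * (h l).1, s l * (h l).2)`, `h` uniform in `(I × I)^L`, is at most a constant times `gm L`.
`cmb_quant`: so a measurable set of sequences whose sections at every tail are contained in the preimage of a set of `gm L`-measure at most
`ε` has measure at most `C ε`.
-/

open MeasureTheory Real Set Filter Topology unitInterval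
open scoped ENNReal

set_option autoImplicit false

namespace Pool.Agent.Helper56.AO

open Pool.Agent.Helper22.AE

/-- the head of the series -/
noncomputable def hd {L : ℕ} (s : Fin L → ℝ) (h : Fin L → I × I) : (Fin L → ℝ) × (Fin L → ℝ) :=
  (fun l => s l * ((h l).1 : ℝ), fun l => s l * ((h l).2 : ℝ))

private lemma gd_cont (L : ℕ) : Continuous (fun w : (Fin L → ℝ) × (Fin L → ℝ) => gd w) := by
  unfold gd
  fun_prop

/-- the diagonal map -/
private noncomputable def dg {L : ℕ} (s : Fin L → ℝ) :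
    ((Fin L → ℝ) × (Fin L → ℝ)) →ₗ[ℝ] ((Fin L → ℝ) × (Fin L → ℝ)) :=
  LinearMap.prodMap (LinearMap.pi fun l => s l • LinearMap.proj l) (LinearMap.pi fun l => s l • LinearMap.proj l)

private lemma dg_apply {L : ℕ} (s : Fin L → ℝ) (w : (Fin L → ℝ) × (Fin L → ℝ)) :
    dg s w = (fun l => s l * w.1 l, fun l => s l * w.2 l) := by
  rfl

private lemma dg_det {L : ℕ} {s : Fin L → ℝ} (hs : ∀ l, s l ≠ 0) : LinearMap.det (dg s) ≠ 0 := by
  have hinj : Function.Injective (dg s) := by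
    intro w w' h
    rw [dg_apply, dg_apply, Prod.mk.injEq] at h
    refine Prod.ext (funext fun l => ?_) (funext fun l => ?_)
    · exact mul_left_cancel₀ (hs l) (congrFun h.1 l)
    · exact mul_left_cancel₀ (hs l) (congrFun h.2 l)
  have h := LinearEquiv.ofInjectiveEndo (dg s) hinj
  have h1 : IsUnit (dg s) := by
    rw [LinearMap.isUnit_iff_ker_eq_bot]
    exact LinearMap.ker_eq_bot.2 hinj
  exact (LinearMap.isUnit_iff_isUnit_det _).1 h1 |>.ne_zero

theorem head_quant {L : ℕ} {s : Fin L → ℝ} (hs : ∀ l, s l ≠ 0) :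
    ∃ C : ℝ≥0∞, C ≠ ∞ ∧ ∀ E : Set ((Fin L → ℝ) × (Fin L → ℝ)),
      (Measure.pi fun _ : Fin L => (volume : Measure (I × I))) {h | hd s h ∈ E} ≤ C * gm L E := by
  classical
  set c0 : ℝ := exp (-π * (∑ l, s l ^ 2 + ∑ l, s l ^ 2)) with hc0
  have hc0p : 0 < c0 := exp_pos _
  have hV : (volume : Measure ((Fin L → ℝ) × (Fin L → ℝ))).IsAddHaarMeasure := by
    rw [Measure.volume_eq_prod]
    exact Measure.prod.instIsAddHaarMeasure _ _
  refine ⟨ENNReal.ofReal |(LinearMap.det (dg s))⁻¹| * (ENNReal.ofReal c0)⁻¹,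
    ENNReal.mul_ne_top ENNReal.ofReal_ne_top (ENNReal.inv_ne_top.2 (by rw [ne_eq, ENNReal.ofReal_eq_zero, not_le]; exact hc0p)), ?_⟩
  intro E₀
  obtain ⟨E, hE, hEm, hEE⟩ : ∃ E, E₀ ⊆ E ∧ MeasurableSet E ∧ gm L E = gm L E₀ :=
    ⟨toMeasurable (gm L) E₀, subset_toMeasurable _ _, measurableSet_toMeasurable _ _, measure_toMeasurable _⟩
  rw [← hEE]
  refine (measure_mono (t := {h | hd s h ∈ E}) fun h hh => hE hh).trans ?_
  have h1 : MeasurePreserving (fun (q : I × I) => ((q.1 : ℝ), (q.2 : ℝ))) volume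
      ((volume.restrict (Icc (0 : ℝ) 1)).prod (volume.restrict (Icc (0 : ℝ) 1))) :=
    unitInterval.measurePreserving_coe.prod unitInterval.measurePreserving_coe
  have h2 := measurePreserving_pi (fun _ : Fin L => (volume : Measure (I × I)))
    (fun _ : Fin L => ((volume.restrict (Icc (0 : ℝ) 1)).prod (volume.restrict (Icc (0 : ℝ) 1)))) (fun _ => h1)
  have h3 := measurePreserving_arrowProdEquivProdArrow ℝ ℝ (Fin L)
    (fun _ => volume.restrict (Icc (0 : ℝ) 1)) (fun _ => volume.restrict (Icc (0 : ℝ) 1))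
  have h4 := h3.comp h2
  set Bx : Set ((Fin L → ℝ) × (Fin L → ℝ)) := (Set.pi univ fun _ => Icc (0 : ℝ) 1) ×ˢ (Set.pi univ fun _ => Icc (0 : ℝ) 1) with hBx
  have h5 : ((Measure.pi fun _ : Fin L => volume.restrict (Icc (0 : ℝ) 1)).prod
      (Measure.pi fun _ : Fin L => volume.restrict (Icc (0 : ℝ) 1))) =
      (volume : Measure ((Fin L → ℝ) × (Fin L → ℝ))).restrict Bx := by
    rw [← Measure.restrict_pi_pi, Measure.prod_restrict]
    rfl
  have hdgm : Measurable (dg s) := (LinearMap.continuous_of_finiteDimensional (dg s)).measurable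
  have h6 : (Measure.pi fun _ : Fin L => (volume : Measure (I × I))) {h | hd s h ∈ E} =
      (volume : Measure ((Fin L → ℝ) × (Fin L → ℝ))) ((dg s) ⁻¹' E ∩ Bx) := by
    rw [← Measure.restrict_apply (hdgm hEm), ← h5, ← h4.measure_preimage (hdgm hEm).nullMeasurableSet]
    rfl
  rw [h6]
  set K : Set ((Fin L → ℝ) × (Fin L → ℝ)) := {w | c0 ≤ gd w} with hK
  have hKm : MeasurableSet K := measurableSet_le measurable_const (gd_cont L).measurable
  have hsub : (dg s) ⁻¹' E ∩ Bx ⊆ (dg s) ⁻¹' (E ∩ K) := by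
    rintro w ⟨hw, hwB⟩
    refine ⟨hw, ?_⟩
    show c0 ≤ gd (dg s w)
    rw [hc0, dg_apply]
    unfold gd
    apply exp_le_exp.2
    have hb1 : ∀ l, (s l * w.1 l) ^ 2 ≤ s l ^ 2 := by
      intro l
      have h := hwB.1 l (mem_univ _)
      rw [mul_pow]
      have h' : w.1 l ^ 2 ≤ 1 := pow_le_one₀ h.1 h.2
      exact mul_le_of_le_one_right (sq_nonneg _) h'
    have hb2 : ∀ l, (s l * w.2 l) ^ 2 ≤ s l ^ 2 := by
      intro l
      have h := hwB.2 l (mem_univ _)
      rw [mul_pow]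
      have h' : w.2 l ^ 2 ≤ 1 := pow_le_one₀ h.1 h.2
      exact mul_le_of_le_one_right (sq_nonneg _) h'
    have h7 : ∑ l, (s l * w.1 l) ^ 2 + ∑ l, (s l * w.2 l) ^ 2 ≤ ∑ l, s l ^ 2 + ∑ l, s l ^ 2 :=
      add_le_add (Finset.sum_le_sum fun l _ => hb1 l) (Finset.sum_le_sum fun l _ => hb2 l)
    have h8 := mul_le_mul_of_nonneg_left h7 pi_pos.le
    show -π * (∑ l, s l ^ 2 + ∑ l, s l ^ 2) ≤ -π * (∑ l, (s l * w.1 l) ^ 2 + ∑ l, (s l * w.2 l) ^ 2)
    linarith
  have h9 : ENNReal.ofReal c0 * (volume : Measure ((Fin L → ℝ) × (Fin L → ℝ))) (E ∩ K) ≤ gm L (E ∩ K) := by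
    unfold gm
    rw [withDensity_apply _ (hEm.inter hKm), ← setLIntegral_const]
    refine setLIntegral_mono' (hEm.inter hKm) fun w hw => ENNReal.ofReal_le_ofReal hw.2
  have h10 : (volume : Measure ((Fin L → ℝ) × (Fin L → ℝ))) (E ∩ K) ≤ (ENNReal.ofReal c0)⁻¹ * gm L E := by
    rw [mul_comm, ← div_eq_mul_inv,
      ENNReal.le_div_iff_mul_le (Or.inl (by rw [ne_eq, ENNReal.ofReal_eq_zero, not_le]; exact hc0p)) (Or.inl ENNReal.ofReal_ne_top),
      mul_comm]
    exact h9.trans (measure_mono inter_subset_left)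
  calc (volume : Measure ((Fin L → ℝ) × (Fin L → ℝ))) ((dg s) ⁻¹' E ∩ Bx)
      ≤ (volume : Measure ((Fin L → ℝ) × (Fin L → ℝ))) ((dg s) ⁻¹' (E ∩ K)) := measure_mono hsub
    _ = ENNReal.ofReal |(LinearMap.det (dg s))⁻¹| * (volume : Measure ((Fin L → ℝ) × (Fin L → ℝ))) (E ∩ K) :=
        Measure.addHaar_preimage_linearMap _ (dg_det hs) _
    _ ≤ ENNReal.ofReal |(LinearMap.det (dg s))⁻¹| * ((ENNReal.ofReal c0)⁻¹ * gm L E) := mul_le_mul_right h10 _
    _ = _ := by rw [mul_assoc]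

private lemma measurable_cmb' (L : ℕ) :
    Measurable (fun q : (Fin L → I × I) × (ℕ → I × I) => cmb L q.1 q.2) := by
  refine measurable_pi_iff.2 fun l => ?_
  by_cases hl : l < L
  · have h : (fun q : (Fin L → I × I) × (ℕ → I × I) => cmb L q.1 q.2 l) = fun q => q.1 ⟨l, hl⟩ := by
      funext q
      simp only [cmb, dif_pos hl]
    rw [h]
    exact (measurable_pi_apply _).comp measurable_fst
  · have h : (fun q : (Fin L → I × I) × (ℕ → I × I) => cmb L q.1 q.2 l) = fun q => q.2 (l - L) := by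
      funext q
      simp only [cmb, dif_neg hl]
    rw [h]
    exact (measurable_pi_apply _).comp measurable_snd

theorem cmb_quant {L : ℕ} {s : Fin L → ℝ} (hs : ∀ l, s l ≠ 0) :
    ∃ C : ℝ, 0 < C ∧ ∀ (B : Set (ℕ → I × I)) (ε : ℝ), MeasurableSet B → 0 ≤ ε →
      (∀ t : ℕ → I × I, ∃ E : Set ((Fin L → ℝ) × (Fin L → ℝ)), (gm L).real E ≤ ε ∧
        ∀ h : Fin L → I × I, cmb L h t ∈ B → hd s h ∈ E) →
      (Measure.infinitePi fun _ : ℕ => (volume : Measure (I × I))).real B ≤ C * ε := by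
  obtain ⟨C, hC, hCE⟩ := head_quant hs
  refine ⟨C.toReal + 1, by positivity, ?_⟩
  intro B ε hB hε hsec
  have h1 : (Measure.infinitePi fun _ : ℕ => (volume : Measure (I × I))) B ≤ C * ENNReal.ofReal ε := by
    rw [← cmb_map L, Measure.map_apply (measurable_cmb' L) hB, Measure.prod_apply_symm ((measurable_cmb' L) hB)]
    calc ∫⁻ t, (Measure.pi fun _ : Fin L => (volume : Measure (I × I)))
          ((fun h => (h, t)) ⁻¹' ((fun q : (Fin L → I × I) × (ℕ → I × I) => cmb L q.1 q.2) ⁻¹' B))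
          ∂(Measure.infinitePi fun _ : ℕ => (volume : Measure (I × I)))
        ≤ ∫⁻ _t, C * ENNReal.ofReal ε ∂(Measure.infinitePi fun _ : ℕ => (volume : Measure (I × I))) := by
          refine lintegral_mono fun t => ?_
          obtain ⟨E, hE, hh⟩ := hsec t
          refine (measure_mono (t := {h | hd s h ∈ E}) fun h hmem => hh h hmem).trans ((hCE E).trans ?_)
          refine mul_le_mul_right ?_ _
          rw [← ENNReal.ofReal_toReal (measure_ne_top (gm L) E)]
          exact ENNReal.ofReal_le_ofReal hE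
      _ = C * ENNReal.ofReal ε := by
          rw [lintegral_const, measure_univ, mul_one]
  have h2 : (Measure.infinitePi fun _ : ℕ => (volume : Measure (I × I))).real B ≤ C.toReal * ε := by
    rw [Measure.real]
    refine (ENNReal.toReal_mono (ENNReal.mul_ne_top hC ENNReal.ofReal_ne_top) h1).trans (le_of_eq ?_)
    rw [ENNReal.toReal_mul, ENNReal.toReal_ofReal hε]
  refine h2.trans ?_
  nlinarith [ENNReal.toReal_nonneg (a := C)]

end Pool.Agent.Helper56.AO
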